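import Pool.Agent.TH977.PW.Inst
import Pool.Agent.Y677.RSZ.FinEx

set_option autoImplicit false

/-!
# Narrow progressions of Cunningham chains of the second kind, inside arbitrary sets of chains

Fix `k ≥ 1`. Let `A` be an ARBITRARY set of integers `m` such that none of the `k + 1` numbers
`m, 2 (m - 1) + 1, ..., 2 ^ k (m - 1) + 1` has a prime factor `≤ m ^ (1 / r)`: for instance the set of all
primes which start a Cunningham chain of the second kind of length `k + 1`, or of exact length `k + 1`, or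
the set of all primes `m` for which the other `k` numbers have at most `r` prime factors. Then all but
`ε Y / log ^ (k + 1) X` of the elements `m` of `A` in `(X, X + Y]`, `X ^ θ ≤ Y ≤ X`, are terms of
`l`-term arithmetic progressions contained in `A` whose difference is at most `(log X) ^ B`; and for all
`l` there are such progressions of primes `m` for which the other `k` numbers have at most `r` prime
factors, with `r` independent of `l`.
-/

namespace Pool.Agent.Results.MP_9f2731_nt.NarrowProgressions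

open Finset Filter

/-- every prime factor of each of the numbers `m`, `2 ^ j (m - 1) + 1`, `1 ≤ j ≤ k`, is larger than
`m ^ (1 / r)` -/
def RoughChain (k r : ℕ) : Set ℕ :=
  {m | ∀ j ≤ k, ∀ p : ℕ, p.Prime → p ∣ 2 ^ j * (m - 1) + 1 → (m : ℝ) ^ (1 / (r : ℝ)) < p}

/-- `m` is prime and each of the numbers `2 ^ j (m - 1) + 1`, `1 ≤ j ≤ k`, has at most `r` prime factors
(with multiplicity), all larger than `m ^ (1 / r)` -/
def AlmostChain (k r : ℕ) : Set ℕ :=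
  {m | m.Prime ∧ m ∈ RoughChain k r ∧
    ∀ j, 1 ≤ j → j ≤ k → (2 ^ j * (m - 1) + 1).primeFactorsList.length ≤ r}

open Pool.Agent.TH977.PW
open Pool.Agent.Y677.RSZ (InProg Outside)

theorem result (k : ℕ) (_hk : 1 ≤ k) (θ : ℝ) (hθ : 0 < θ) (hθ1 : θ ≤ 1) :
    ∃ r0 : ℕ, 2 ≤ r0 ∧ ∀ r : ℕ, r0 ≤ r →
    (∃ κ : ℝ, 0 < κ ∧ ∀ᶠ X : ℕ in atTop,
      κ * X / Real.log X ^ (k + 1) ≤ N (AlmostChain k r) X (2 * X)) ∧
    (∀ l : ℕ, 2 ≤ l → ∀ ε : ℝ, 0 < ε → ∃ B : ℕ, ∀ᶠ X : ℕ in atTop, ∀ Y : ℕ,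
      (X : ℝ) ^ θ ≤ Y → Y ≤ X → ∀ A : Set ℕ, A ⊆ RoughChain k r →
        (N (Outside A l (Real.log X ^ B) X (X + Y)) X (X + Y) : ℝ) ≤ ε * Y / Real.log X ^ (k + 1)) ∧
    ∀ l : ℕ, ∃ B : ℕ, ∀ᶠ X : ℕ in atTop, ∃ u d : ℕ, 1 ≤ d ∧ (d : ℝ) ≤ Real.log X ^ B ∧
      ∀ i < l, u + i * d ∈ AlmostChain k r ∧ X < u + i * d ∧ u + i * d ≤ 2 * X := by
  suffices h : ∃ r0 : ℕ, 2 ≤ r0 ∧ ∀ r : ℕ, r0 ≤ r →
      (∃ κ : ℝ, 0 < κ ∧ ∀ᶠ X : ℕ in atTop,
        κ * X / Real.log X ^ (k + 1) ≤ N (AlmostChain k r) X (2 * X)) ∧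
      ∀ l : ℕ, 2 ≤ l → ∀ ε : ℝ, 0 < ε → ∃ B : ℕ, ∀ᶠ X : ℕ in atTop, ∀ Y : ℕ,
        (X : ℝ) ^ θ ≤ Y → Y ≤ X → ∀ A : Set ℕ, A ⊆ RoughChain k r →
          (N (Outside A l (Real.log X ^ B) X (X + Y)) X (X + Y) : ℝ) ≤
            ε * Y / Real.log X ^ (k + 1) by
    obtain ⟨r0, hr0, h⟩ := h
    exact ⟨r0, hr0, fun r hr => ⟨(h r hr).1, (h r hr).2,
      Pool.Agent.Y677.RSZ.exists_prog_dyadic (fun _ hm => hm.2.1) (k + 1) hθ1 (h r hr).1 (h r hr).2⟩⟩
  have hval : ∀ (j m : ℕ), 1 ≤ m → ((2 ^ j : ℕ) : ℤ) * m + (1 - 2 ^ j) =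
      ((2 ^ j * (m - 1) + 1 : ℕ) : ℤ) := by
    intro j m hm
    push_cast [Nat.cast_sub hm]
    ring
  have hzero : ∀ r p : ℕ, 2 ≤ r → p.Prime → ((0 : ℕ) : ℝ) ^ (1 / (r : ℝ)) < (p : ℝ) := by
    intro r p hr hp
    have h1 : (1 : ℝ) / r ≠ 0 := by
      have : (0 : ℝ) < r := by exact_mod_cast (by omega : 0 < r)
      positivity
    rw [Nat.cast_zero, Real.zero_rpow h1]
    exact_mod_cast hp.pos
  refine Pool.Agent.Y677.RSZ.narrow_lin_prime (ι := Fin k) (fun i => 2 ^ ((i : ℕ) + 1)) (fun i => 1 - 2 ^ ((i : ℕ) + 1))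
    (fun _ => by positivity)
    (fun i => ⟨1, 1, by push_cast; ring⟩)
    (fun i j h _ => by
      have h1 := Nat.pow_right_injective le_rfl h
      exact Fin.ext (by simpa using h1))
    (fun i h => by
      have h1 : 2 ^ ((i : ℕ) + 1) = 1 := h.1
      have h2 : 1 < 2 ^ ((i : ℕ) + 1) := Nat.one_lt_two_pow (by omega)
      omega)
    (by
      intro p hp
      refine ⟨1, fun h => hp.one_lt.ne' (Nat.dvd_one.1 h), fun i h => ?_⟩
      rw [hval _ 1 le_rfl] at h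
      have h1 : p ∣ 1 := by
        rw [Int.natCast_dvd_natCast] at h
        simpa using h
      exact hp.one_lt.ne' (Nat.dvd_one.1 h1))
    (RoughChain k) (AlmostChain k) (k + 1) (by rw [Fintype.card_fin]) ?_ ?_ θ hθ hθ1
  · intro r m hr hm
    rcases Nat.eq_zero_or_pos m with rfl | h1
    · exact ⟨fun p hp _ => hzero r p hr hp, fun i p hp _ => hzero r p hr hp⟩
    refine ⟨fun p hp hd => hm 0 (Nat.zero_le _) p hp ?_, fun i p hp hd => ?_⟩
    · have e : 2 ^ 0 * (m - 1) + 1 = m := by omega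
      rw [e]; exact hd
    · refine hm ((i : ℕ) + 1) (by omega) p hp ?_
      rw [hval _ m h1] at hd
      exact Int.natCast_dvd_natCast.1 hd
  · intro r m hr hmp h1 h2
    have hm1 : 1 ≤ m := hmp.one_lt.le
    have hsub : ∀ j, 1 ≤ j → j ≤ k → ∃ i : Fin k, (i : ℕ) + 1 = j := fun j hj hjk =>
      ⟨⟨j - 1, by omega⟩, by simp only []; omega⟩
    refine ⟨hmp, fun j hjk p hp hd => ?_, fun j hj hjk => ?_⟩
    · rcases Nat.eq_zero_or_pos j with rfl | hj
      · have e : 2 ^ 0 * (m - 1) + 1 = m := by omega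
        rw [e] at hd
        exact rpow_lt_dvd r m p hr hmp hp hd
      · obtain ⟨i, rfl⟩ := hsub j hj hjk
        refine h1 i p hp ?_
        rw [hval _ m hm1]
        exact Int.natCast_dvd_natCast.2 hd
    · obtain ⟨i, rfl⟩ := hsub j hj hjk
      have h3 := h2 i
      rw [hval _ m hm1, Int.natAbs_natCast] at h3
      exact h3

end Pool.Agent.Results.MP_9f2731_nt.NarrowProgressions
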